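import Pool.Agent.Helper79.GL4.GoalsR

/-!
# GL4: packet N45 (no subgroups of order 45 or 90 in `GL₄(2)`)
-/

namespace GL4

theorem n45_zmod : ∀ z : ZMod 5, z ^ 45 = 1 → z = 1 := by decide

open Module Submodule

section

variable {F : Type} [Field F] [Finite F] {V : Type} [AddCommGroup V] [Module F V]
    [FiniteDimensional F V]

theorem n45_card_mod (hF : Nat.card F = 2) (hV : finrank F V = 4) (s : V ≃ₗ[F] V) (h5 : s ^ 5 = 1)
    (E : Submodule F V) (hE : ∀ x ∈ E, s x ∈ E) (v : V) (hv : v ∈ E) (hv0 : v ≠ 0)
    (hfix : ∀ x ∈ E, s x = x → x = 0) : E = ⊤ := by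
  classical
  have : Finite V := Module.finite_of_finite F
  have : Fintype E := Fintype.ofFinite E
  let f : Function.End E := fun x => ⟨s x, hE x x.2⟩
  have hfp : ∀ (n : ℕ) (x : E), ((f ^ n) x : V) = (s ^ n) x := by
    intro n
    induction n with
    | zero => intro x; rfl
    | succ n ih =>
      intro x
      rw [pow_succ', pow_succ']
      show s ((f ^ n) x : V) = s ((s ^ n) x)
      rw [ih]
  have hf5 : f ^ 5 ^ 1 = 1 := by
    funext x
    apply Subtype.ext
    rw [hfp]
    simp only [pow_one]
    rw [h5]
    rfl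
  have : Fact (Nat.Prime 5) := ⟨by norm_num⟩
  have h1 := Equiv.Perm.card_fixedPoints_modEq hf5
  have h2 : Fintype.card (Function.fixedPoints f) = 1 := by
    rw [Fintype.card_eq_one_iff]
    refine ⟨⟨0, by
      show f 0 = 0
      apply Subtype.ext
      show s 0 = 0
      exact map_zero s⟩, ?_⟩
    rintro ⟨x, hx⟩
    apply Subtype.ext
    apply Subtype.ext
    refine hfix x x.2 ?_
    have : f x = x := hx
    exact congrArg Subtype.val this
  rw [h2] at h1
  have h3 : Fintype.card E = 2 ^ finrank F E := by
    rw [← Nat.card_eq_fintype_card, Module.natCard_eq_pow_finrank (K := F), hF]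
  have h4 : finrank F E ≤ 4 := hV ▸ Submodule.finrank_le E
  have h5' : finrank F E ≠ 0 := by
    intro h
    have := Submodule.finrank_eq_zero.mp h
    rw [this] at hv
    exact hv0 ((Submodule.mem_bot F).mp hv)
  rw [h3] at h1
  apply Submodule.eq_top_of_finrank_eq
  rw [hV]
  generalize finrank F E = d at *
  interval_cases d
  · exact absurd rfl h5'
  · exact absurd h1 (by decide)
  · exact absurd h1 (by decide)
  · exact absurd h1 (by decide)
  · rfl

theorem n45_cent (hF : Nat.card F = 2) (hV : finrank F V = 4) (s : V ≃ₗ[F] V) (h5 : s ^ 5 = 1)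
    (hs : s ≠ 1) (T : Subgroup (V ≃ₗ[F] V)) (hT : ∀ t ∈ T, t * s = s * t) : Nat.card T ≤ 15 := by
  classical
  have : Finite V := Module.finite_of_finite F
  have : Fintype V := Fintype.ofFinite V
  -- no nonzero fixed vectors
  have hcV : Fintype.card V = 16 := by
    rw [← Nat.card_eq_fintype_card, Module.natCard_eq_pow_finrank (K := F), hF, hV]; norm_num
  have hfix : ∀ x : V, s x = x → x = 0 := by
    by_contra hcon
    push Not at hcon
    obtain ⟨v, hv, hv0⟩ := hcon
    apply hs
    let W : Submodule F V := LinearMap.eqLocus (s : V →ₗ[F] V) LinearMap.id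
    have hWmem : ∀ x, x ∈ W ↔ s x = x := by
      intro x
      exact LinearMap.mem_eqLocus
    let f : Function.End V := fun x => s x
    have hfp : ∀ (n : ℕ) (x : V), ((f ^ n) x : V) = (s ^ n) x := by
      intro n
      induction n with
      | zero => intro x; rfl
      | succ n ih =>
        intro x
        rw [pow_succ', pow_succ']
        show s ((f ^ n) x : V) = s ((s ^ n) x)
        rw [ih]
    have hf5 : f ^ 5 ^ 1 = 1 := by
      funext x
      rw [hfp]
      simp only [pow_one]
      rw [h5]
      rfl
    have : Fact (Nat.Prime 5) := ⟨by norm_num⟩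
    have h1 := Equiv.Perm.card_fixedPoints_modEq hf5
    have h2 : Fintype.card (Function.fixedPoints f) = 2 ^ finrank F W := by
      rw [← Nat.card_eq_fintype_card, ← hF, ← Module.natCard_eq_pow_finrank (K := F)]
      apply Nat.card_congr
      exact Equiv.subtypeEquivRight (fun x => (hWmem x).symm)
    have h4 : finrank F W ≤ 4 := hV ▸ Submodule.finrank_le W
    have h5' : finrank F W ≠ 0 := by
      intro h
      have h' := Submodule.finrank_eq_zero.mp h
      have hvW : v ∈ W := (hWmem v).mpr hv
      rw [h'] at hvW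
      exact hv0 ((Submodule.mem_bot F).mp hvW)
    rw [h2, hcV] at h1
    have hW : W = ⊤ := by
      apply Submodule.eq_top_of_finrank_eq
      rw [hV]
      generalize finrank F W = d at *
      interval_cases d
      · exact absurd rfl h5'
      · exact absurd h1 (by decide)
      · exact absurd h1 (by decide)
      · exact absurd h1 (by decide)
      · rfl
    apply LinearEquiv.ext
    intro x
    have : x ∈ W := by rw [hW]; trivial
    exact (hWmem x).mp this
  -- pick a nonzero vector
  have : Nontrivial V := by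
    rw [← Fintype.one_lt_card_iff_nontrivial, hcV]; norm_num
  obtain ⟨v, hv⟩ := exists_ne (0 : V)
  have hinj : Function.Injective (fun t : T => (⟨(t : V ≃ₗ[F] V) v, by
      intro h
      exact hv ((t : V ≃ₗ[F] V).map_eq_zero_iff.mp h)⟩ : {x : V // x ≠ 0})) := by
    rintro ⟨t, ht⟩ ⟨t', ht'⟩ h
    have h' : t v = t' v := congrArg Subtype.val h
    let E : Submodule F V := LinearMap.eqLocus (t : V →ₗ[F] V) (t' : V →ₗ[F] V)
    have hEmem : ∀ x, x ∈ E ↔ t x = t' x := by
      intro x
      exact LinearMap.mem_eqLocus
    have hE : E = ⊤ := by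
      refine n45_card_mod hF hV s h5 E ?_ v ((hEmem v).mpr h') hv (fun x _ hx => hfix x hx)
      intro x hx
      rw [hEmem] at hx ⊢
      have e1 : t (s x) = s (t x) := by
        have := congrArg (fun g : V ≃ₗ[F] V => g x) (hT t ht)
        exact this
      have e2 : t' (s x) = s (t' x) := by
        have := congrArg (fun g : V ≃ₗ[F] V => g x) (hT t' ht')
        exact this
      rw [e1, e2, hx]
    apply Subtype.ext
    apply LinearEquiv.ext
    intro x
    have : x ∈ E := by rw [hE]; trivial
    exact (hEmem x).mp this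
  have hle := Nat.card_le_card_of_injective _ hinj
  have hc : Nat.card {x : V // x ≠ 0} = 15 := by
    rw [Nat.card_eq_fintype_card, Fintype.card_subtype_compl, hcV]
    simp
  rw [hc] at hle
  exact hle

theorem n45_45 (hF : Nat.card F = 2) (hV : finrank F V = 4) (T : Subgroup (V ≃ₗ[F] V)) :
    Nat.card T ≠ 45 := by
  classical
  intro hT
  have : Fact (Nat.Prime 5) := ⟨by norm_num⟩
  have : Finite T := Nat.finite_of_card_ne_zero (by rw [hT]; norm_num)
  let P : Sylow 5 T := default
  have hPc : Nat.card P = 5 := by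
    rw [Sylow.card_eq_multiplicity, hT]
    have : Nat.factorization 45 5 = 1 := by
      rw [show (45 : ℕ) = 5 * 9 by norm_num, Nat.factorization_mul (by norm_num) (by norm_num)]
      simp [Nat.Prime.factorization (show Nat.Prime 5 by norm_num),
        Nat.factorization_eq_zero_of_not_dvd (show ¬ 5 ∣ 9 by norm_num)]
    rw [this]; norm_num
  have hidx : (P : Subgroup T).index = 9 := by
    have := (P : Subgroup T).card_mul_index
    rw [hT] at this
    have h' : Nat.card (P : Subgroup T) = 5 := hPc
    rw [h'] at this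
    omega
  have hone : Nat.card (Sylow 5 T) = 1 := by
    have h1 := card_sylow_modEq_one 5 T
    have h2 : Nat.card (Sylow 5 T) ∣ 9 := hidx ▸ P.card_dvd_index
    have h3 : Nat.card (Sylow 5 T) ≤ 9 := Nat.le_of_dvd (by norm_num) h2
    generalize Nat.card (Sylow 5 T) = n at *
    interval_cases n
    · exact absurd h1 (by decide)
    · rfl
    all_goals first
      | exact absurd h1 (by decide)
      | exact absurd h2 (by decide)
  have : Subsingleton (Sylow 5 T) := (Nat.card_eq_one_iff_unique.mp hone).1
  have hN : (P : Subgroup T).Normal := Sylow.normal_of_subsingleton P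
  have : Nontrivial P := by
    apply (Finite.one_lt_card_iff_nontrivial).mp
    rw [hPc]; norm_num
  obtain ⟨s, hs⟩ := exists_ne (1 : P)
  have hs1 : (s : T) ≠ 1 := fun h => hs (Subtype.ext h)
  have hord : orderOf s = 5 := by
    have h1 : orderOf s ∣ 5 := (orderOf_dvd_natCard s).trans (dvd_of_eq hPc)
    rcases (Nat.dvd_prime (by norm_num)).mp h1 with h | h
    · exact absurd (orderOf_eq_one_iff.mp h) hs
    · exact h
  have hord' : orderOf (s : T) = 5 := by rw [Subgroup.orderOf_coe]; exact hord
  have hcomm : ∀ t : T, t * s = s * t := by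
    intro t
    have hmem : t * s * t⁻¹ ∈ (P : Subgroup T) := hN.conj_mem s s.2 t
    have hz : (⟨t * s * t⁻¹, hmem⟩ : P) ∈ Subgroup.zpowers s :=
      mem_zpowers_of_prime_card (p := 5) hPc hs
    rw [← mem_powers_iff_mem_zpowers] at hz
    obtain ⟨k, hk⟩ := hz
    have hk' : t * s * t⁻¹ = (s : T) ^ k := by
      have := congrArg Subtype.val hk
      simpa using this.symm
    have hpow : ∀ n : ℕ, t ^ n * s * (t ^ n)⁻¹ = (s : T) ^ (k ^ n) := by
      intro n
      induction n with
      | zero => simp
      | succ n ih =>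
        calc t ^ (n + 1) * s * (t ^ (n + 1))⁻¹ = t * (t ^ n * s * (t ^ n)⁻¹) * t⁻¹ := by
              rw [pow_succ']; group
          _ = t * (s : T) ^ (k ^ n) * t⁻¹ := by rw [ih]
          _ = (t * s * t⁻¹) ^ (k ^ n) := by rw [conj_pow]
          _ = (s : T) ^ (k ^ (n + 1)) := by rw [hk', ← pow_mul, pow_succ']
    have ht : t ^ 45 = 1 := by rw [← hT]; exact pow_card_eq_one'
    have h45 := hpow 45
    rw [ht] at h45
    simp only [one_mul, inv_one, mul_one] at h45
    have hmod : k ^ 45 ≡ 1 [MOD 5] := by
      rw [← hord', ← pow_eq_pow_iff_modEq, pow_one]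
      exact h45.symm
    have hk1 : k ≡ 1 [MOD 5] := by
      rw [← ZMod.natCast_eq_natCast_iff] at hmod ⊢
      push_cast at hmod ⊢
      exact n45_zmod _ hmod
    have hsk : (s : T) ^ k = s := by
      have : (s : T) ^ k = (s : T) ^ 1 := by
        rw [pow_eq_pow_iff_modEq, hord']; exact hk1
      rw [this, pow_one]
    rw [hsk] at hk'
    rw [mul_inv_eq_iff_eq_mul] at hk'
    exact hk'
  have hle := n45_cent hF hV ((s : T) : V ≃ₗ[F] V)
    (by
      have : (s : T) ^ 5 = 1 := orderOf_dvd_iff_pow_eq_one.mp (dvd_of_eq hord')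
      exact congrArg Subtype.val this)
    (fun h => hs1 (Subtype.ext h)) T
    (fun t ht => congrArg Subtype.val (hcomm ⟨t, ht⟩))
  omega

theorem n45_half (T : Type) [Group T] (hT : Nat.card T = 90) :
    ∃ K : Subgroup T, Nat.card K = 45 := by
  classical
  have : Finite T := Nat.finite_of_card_ne_zero (by rw [hT]; norm_num)
  have : Fintype T := Fintype.ofFinite T
  have hT' : Fintype.card T = 90 := by rw [← Nat.card_eq_fintype_card, hT]
  have : Fact (Nat.Prime 2) := ⟨Nat.prime_two⟩
  obtain ⟨t, ht⟩ := exists_prime_orderOf_dvd_card' (G := T) 2 (by rw [hT]; norm_num)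
  let φ : T →* ℤˣ := Equiv.Perm.sign.comp (MulAction.toPermHom T T)
  have hsgn : φ t = -1 := by
    show Equiv.Perm.sign (MulAction.toPermHom T T t) = -1
    set σ : Equiv.Perm T := MulAction.toPermHom T T t with hσ
    have hord : orderOf σ = 2 := by
      rw [← ht]
      exact orderOf_injective _ MulAction.toPerm_injective t
    obtain ⟨n, hn⟩ := Equiv.Perm.cycleType_prime_order (σ := σ) (by rw [hord]; exact Nat.prime_two)
    have hsupp : σ.support = Finset.univ := by
      ext x
      simp only [Equiv.Perm.mem_support, Finset.mem_univ, iff_true]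
      intro h
      have h' : t * x = x := h
      have : t = 1 := by simpa using h'
      rw [this, orderOf_one] at ht
      norm_num at ht
    have hsum := Equiv.Perm.sum_cycleType σ
    rw [hsupp, Finset.card_univ, hT', hn, hord] at hsum
    simp only [Multiset.sum_replicate, smul_eq_mul] at hsum
    rw [Equiv.Perm.sign_of_cycleType, hn, hord]
    simp only [Multiset.sum_replicate, smul_eq_mul, Multiset.card_replicate]
    have : n + 1 = 45 := by omega
    rw [this]
    decide
  refine ⟨φ.ker, ?_⟩
  have hsurj : Function.Surjective φ := by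
    intro u
    rcases Int.units_eq_one_or u with h | h
    · exact ⟨1, by rw [h, map_one]⟩
    · exact ⟨t, by rw [h, hsgn]⟩
  have h1 : φ.ker.index = 2 := by
    rw [Subgroup.index_ker, MonoidHom.range_eq_top.mpr hsurj]
    simp
  have h2 := φ.ker.card_mul_index
  rw [h1, hT] at h2
  omega

end

theorem n45 : N45 := by
  intro F _ _ V _ _ _ hV hF T
  refine ⟨n45_45 hF hV T, ?_⟩
  intro hT
  obtain ⟨K, hK⟩ := n45_half T hT
  refine n45_45 hF hV (K.map T.subtype) ?_
  rw [← hK]
  exact (Nat.card_congr (K.equivMapOfInjective T.subtype T.subtype_injective).toEquiv).symm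

end GL4
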